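import Mathlib

/-!
# Four sets of ten elements (MP_51656a_co, the case `r = 10`)
-/

set_option autoImplicit false

open Finset

namespace Pool.Agent.W5h76.CN

/-- Four sets of ten elements with union of at least 28 elements, no common element: some two of them
have at most two common elements. -/
theorem four_ten {V : Type} [Fintype V] [DecidableEq V] (A B C D : Finset V)
    (hA : A.card = 10) (hB : B.card = 10) (hC : C.card = 10) (hD : D.card = 10)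
    (hU : 28 ≤ (A ∪ B ∪ C ∪ D).card) (h0 : ∀ v, ¬ (v ∈ A ∧ v ∈ B ∧ v ∈ C ∧ v ∈ D))
    (h1 : 3 ≤ (A ∩ B).card) (h2 : 3 ≤ (A ∩ C).card) (h3 : 3 ≤ (A ∩ D).card)
    (h4 : 3 ≤ (B ∩ C).card) (h5 : 3 ≤ (B ∩ D).card) (h6 : 3 ≤ (C ∩ D).card) : False := by
  classical
  have key : ∀ S : Finset V, S.card = ∑ v : V, if v ∈ S then 1 else 0 := by
    intro S
    rw [← sum_filter, ← card_eq_sum_ones]
    congr 1
    ext v; simp
  set xA := (B ∩ C ∩ D).card with hxA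
  set xB := (A ∩ C ∩ D).card with hxB
  set xC := (A ∩ B ∩ D).card with hxC
  set xD := (A ∩ B ∩ C).card with hxD
  set y := ∑ v : V, (if (v ∈ A ∧ v ∈ B ∧ v ∉ C ∧ v ∉ D) ∨ (v ∈ A ∧ v ∈ C ∧ v ∉ B ∧ v ∉ D) ∨
    (v ∈ A ∧ v ∈ D ∧ v ∉ B ∧ v ∉ C) ∨ (v ∈ B ∧ v ∈ C ∧ v ∉ A ∧ v ∉ D) ∨
    (v ∈ B ∧ v ∈ D ∧ v ∉ A ∧ v ∉ C) ∨ (v ∈ C ∧ v ∈ D ∧ v ∉ A ∧ v ∉ B) then 1 else 0) with hy
  have e1 : A.card + B.card + C.card + D.card =
      (A ∪ B ∪ C ∪ D).card + 2 * (xA + xB + xC + xD) + y := by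
    rw [key A, key B, key C, key D, key (A ∪ B ∪ C ∪ D), hxA, hxB, hxC, hxD, key (B ∩ C ∩ D),
      key (A ∩ C ∩ D), key (A ∩ B ∩ D), key (A ∩ B ∩ C), hy]
    simp only [mul_add, mul_sum, ← sum_add_distrib]
    refine sum_congr rfl fun v _ => ?_
    have hb := h0 v
    by_cases a : v ∈ A <;> by_cases b : v ∈ B <;> by_cases c : v ∈ C <;> by_cases d : v ∈ D <;>
      simp [a, b, c, d] at hb ⊢
  have e2 : (A ∩ B).card + (A ∩ C).card + (A ∩ D).card + (B ∩ C).card + (B ∩ D).card +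
      (C ∩ D).card = 3 * (xA + xB + xC + xD) + y := by
    rw [key (A ∩ B), key (A ∩ C), key (A ∩ D), key (B ∩ C), key (B ∩ D), key (C ∩ D), hxA, hxB,
      hxC, hxD, key (B ∩ C ∩ D), key (A ∩ C ∩ D), key (A ∩ B ∩ D), key (A ∩ B ∩ C), hy]
    simp only [mul_add, mul_sum, ← sum_add_distrib]
    refine sum_congr rfl fun v _ => ?_
    have hb := h0 v
    by_cases a : v ∈ A <;> by_cases b : v ∈ B <;> by_cases c : v ∈ C <;> by_cases d : v ∈ D <;>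
      simp [a, b, c, d] at hb ⊢
  have hle : ∀ (S T T' : Finset V), (∀ v, (if v ∈ S then 1 else 0) ≤ (if v ∈ T then 1 else 0) +
      (if v ∈ T' then 1 else 0) + (if (v ∈ A ∧ v ∈ B ∧ v ∉ C ∧ v ∉ D) ∨
      (v ∈ A ∧ v ∈ C ∧ v ∉ B ∧ v ∉ D) ∨
    (v ∈ A ∧ v ∈ D ∧ v ∉ B ∧ v ∉ C) ∨ (v ∈ B ∧ v ∈ C ∧ v ∉ A ∧ v ∉ D) ∨
    (v ∈ B ∧ v ∈ D ∧ v ∉ A ∧ v ∉ C) ∨ (v ∈ C ∧ v ∈ D ∧ v ∉ A ∧ v ∉ B) then 1 else 0)) →
      S.card ≤ T.card + T'.card + y := by
    intro S T T' h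
    rw [key S, key T, key T', hy, ← sum_add_distrib, ← sum_add_distrib]
    exact sum_le_sum fun v _ => h v
  have f1 : (A ∩ B).card ≤ xC + xD + y := hle _ _ _ fun v => by
    have hb := h0 v
    by_cases a : v ∈ A <;> by_cases b : v ∈ B <;> by_cases c : v ∈ C <;> by_cases d : v ∈ D <;>
      simp [a, b, c, d] at hb ⊢
  have f2 : (A ∩ C).card ≤ xB + xD + y := hle _ _ _ fun v => by
    have hb := h0 v
    by_cases a : v ∈ A <;> by_cases b : v ∈ B <;> by_cases c : v ∈ C <;> by_cases d : v ∈ D <;>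
      simp [a, b, c, d] at hb ⊢
  have f3 : (A ∩ D).card ≤ xB + xC + y := hle _ _ _ fun v => by
    have hb := h0 v
    by_cases a : v ∈ A <;> by_cases b : v ∈ B <;> by_cases c : v ∈ C <;> by_cases d : v ∈ D <;>
      simp [a, b, c, d] at hb ⊢
  have f4 : (B ∩ C).card ≤ xA + xD + y := hle _ _ _ fun v => by
    have hb := h0 v
    by_cases a : v ∈ A <;> by_cases b : v ∈ B <;> by_cases c : v ∈ C <;> by_cases d : v ∈ D <;>
      simp [a, b, c, d] at hb ⊢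
  have f5 : (B ∩ D).card ≤ xA + xC + y := hle _ _ _ fun v => by
    have hb := h0 v
    by_cases a : v ∈ A <;> by_cases b : v ∈ B <;> by_cases c : v ∈ C <;> by_cases d : v ∈ D <;>
      simp [a, b, c, d] at hb ⊢
  have f6 : (C ∩ D).card ≤ xA + xB + y := hle _ _ _ fun v => by
    have hb := h0 v
    by_cases a : v ∈ A <;> by_cases b : v ∈ B <;> by_cases c : v ∈ C <;> by_cases d : v ∈ D <;>
      simp [a, b, c, d] at hb ⊢
  omega

end Pool.Agent.W5h76.CN
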