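import Pool.Agent.W5h76.CN.Upper
import Pool.Agent.W5h76.CN.Ten

/-!
# The upper bound for `r = 10` (MP_51656a_co)
-/

set_option autoImplicit false

open Finset

namespace Pool.Agent.W5h76.CN

/-- The main count. -/
theorem main_count {V : Type} [Fintype V] [DecidableEq V] {r K : ℕ} (hr : 3 ≤ r) (hK : 2 ≤ K)
    (E : Finset (Finset V)) (hU : Uniform r E)
    (hL : Local r E) (hno : ∀ T : Finset V, Cover E T → K ≤ T.card) :
    ∃ F : Finset (Finset V), F ⊆ E ∧ (¬ ∃ v, ∀ e ∈ F, v ∈ e) ∧ 4 ≤ F.card ∧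
      3 * r - 2 ≤ (F.biUnion id).card ∧
      (∀ P ∈ F.powersetCard (F.card - 2), K ≤ (univ.filter fun v => ∀ e ∈ P, v ∈ e).card) ∧
      (F.card - 2) * (F.card * K) + 2 * (3 * r - 2) ≤ 2 * (F.card * r) := by
  classical
  -- no common vertex
  have hcom : ¬ ∃ v, ∀ e ∈ E, v ∈ e := by
    rintro ⟨v, hv⟩
    have := hno {v} (fun e he => ⟨v, by simp, hv e he⟩)
    simp at this
    omega
  have hne : E.Nonempty := by
    by_contra h0
    rw [not_nonempty_iff_eq_empty] at h0
    have := hno ∅ (fun e he => by simp [h0] at he)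
    simp at this
    omega
  -- a minimal subfamily without a common vertex
  obtain ⟨F, hF, hmin⟩ := exists_min_image (E.powerset.filter fun F => ¬ ∃ v, ∀ e ∈ F, v ∈ e)
    (fun F => F.card) ⟨E, by simp [mem_filter]; simpa using hcom⟩
  rw [mem_filter, mem_powerset] at hF
  obtain ⟨hFE, hFc⟩ := hF
  set m := F.card with hm
  have hsmall : ∀ P : Finset (Finset V), P ⊆ E → P.card < m → ∃ v, ∀ e ∈ P, v ∈ e := by
    intro P hP hc
    by_contra hh
    have := hmin P (by rw [mem_filter, mem_powerset]; exact ⟨hP, hh⟩)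
    omega
  -- the union
  set U : Finset V := F.biUnion id with hUd
  have hUcard : 3 * r - 2 ≤ U.card := by
    by_contra hlt
    rcases hL U (by omega) with h1 | ⟨v, hv⟩
    · have hFne : F.Nonempty := by
        by_contra h0
        rw [not_nonempty_iff_eq_empty] at h0
        apply hFc
        obtain ⟨e, he⟩ := hne
        have : e.Nonempty := card_pos.1 (by rw [hU e he]; omega)
        obtain ⟨v, _⟩ := this
        exact ⟨v, by simp [h0]⟩
      obtain ⟨e, he⟩ := hFne
      exact h1 e (hFE he) (fun x hx => mem_biUnion.2 ⟨e, he, hx⟩)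
    · exact hFc ⟨v, fun e he => hv e (hFE he) (fun x hx => mem_biUnion.2 ⟨e, he, hx⟩)⟩
  -- degrees
  set d : V → ℕ := fun v => (F.filter fun e => v ∈ e).card with hd
  have hdle : ∀ v, d v ≤ m - 1 := by
    intro v
    have h1 : ∃ e ∈ F, v ∉ e := by
      by_contra hh
      push Not at hh
      exact hFc ⟨v, hh⟩
    obtain ⟨e, he, hve⟩ := h1
    have : (F.filter fun e => v ∈ e) ⊂ F := by
      rw [filter_ssubset]
      exact ⟨e, he, hve⟩
    have := card_lt_card this
    change (F.filter fun e => v ∈ e).card ≤ m - 1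
    omega
  have hdU : ∀ v ∈ U, 1 ≤ d v := by
    intro v hv
    obtain ⟨e, he, hve⟩ := mem_biUnion.1 hv
    exact card_pos.2 ⟨e, mem_filter.2 ⟨he, hve⟩⟩
  have hd0 : ∀ v, v ∉ U → d v = 0 := by
    intro v hv
    rw [hd]
    simp only
    rw [card_eq_zero, filter_eq_empty_iff]
    intro e he hve
    exact hv (mem_biUnion.2 ⟨e, he, hve⟩)
  have hsum : ∑ v ∈ U, d v = m * r := by
    have h1 : ∑ v ∈ U, d v = ∑ v : V, d v := by
      refine sum_subset (subset_univ _) fun v _ hv => hd0 v hv
    have h2 : ∑ v : V, d v = ∑ e ∈ F, e.card := by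
      simp only [hd, card_eq_sum_ones, sum_filter]
      rw [sum_comm]
      refine sum_congr rfl fun e _ => ?_
      rw [← sum_filter]
      simp
    rw [h1, h2, sum_congr rfl (fun e he => hU e (hFE he)), sum_const, smul_eq_mul]
  have hUsum : ∑ v ∈ U, (d v - 1) + U.card = m * r := by
    rw [← hsum, card_eq_sum_ones, ← sum_add_distrib]
    exact sum_congr rfl fun v hv => by have := hdU v hv; omega
  -- m ≥ 4
  have hm4 : 4 ≤ m := by
    by_contra hlt
    -- for each member of F a vertex of degree m - 1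
    have hch : ∀ e ∈ F, ∃ v, v ∉ e ∧ ∀ e' ∈ F, e' ≠ e → v ∈ e' := by
      intro e he
      obtain ⟨v, hv⟩ := hsmall (F.erase e) ((erase_subset _ _).trans hFE)
        (by rw [card_erase_of_mem he]; have := card_pos.2 ⟨e, he⟩; omega)
      refine ⟨v, fun hve => hFc ⟨v, fun e' he' => ?_⟩, fun e' he' hne => hv e'
        (mem_erase.2 ⟨hne, he'⟩)⟩
      by_cases h1 : e' = e
      · rw [h1]; exact hve
      · exact hv e' (mem_erase.2 ⟨h1, he'⟩)
    have hm0 : m ≠ 0 := by
      intro h0
      have : F = ∅ := card_eq_zero.1 (by omega)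
      apply hFc
      obtain ⟨e, he⟩ := hne
      obtain ⟨v, _⟩ : e.Nonempty := card_pos.1 (by rw [hU e he]; omega)
      exact ⟨v, by simp [this]⟩
    have hU2 : U.card ≤ m * r := by omega
    have hm3 : m = 3 := by
      rcases (by omega : m = 1 ∨ m = 2 ∨ m = 3) with h1 | h1 | h1
      · rw [h1] at hU2; omega
      · rw [h1] at hU2; omega
      · exact h1
    have hV : Nonempty V := by
      obtain ⟨e, he⟩ := hne
      obtain ⟨v, _⟩ : e.Nonempty := card_pos.1 (by rw [hU e he]; omega)
      exact ⟨v⟩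
    choose! g hg1 hg2 using hch
    have hinj : Set.InjOn g (F : Set (Finset V)) := by
      intro a ha b hb hab
      by_contra hne'
      exact hg1 b hb (hab ▸ hg2 a ha b hb (Ne.symm hne'))
    have himg : F.image g ⊆ U := by
      intro v hv
      obtain ⟨e, he, rfl⟩ := mem_image.1 hv
      obtain ⟨e', he', hne'⟩ : ∃ e' ∈ F, e' ≠ e := by
        by_contra hh
        push Not at hh
        have : F ⊆ {e} := fun x hx => by simp [hh x hx]
        have := card_le_card this
        simp at this
        omega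
      exact mem_biUnion.2 ⟨e', he', hg2 e he e' he' hne'⟩
    have hdeg : ∀ v ∈ F.image g, 1 ≤ d v - 1 := by
      intro v hv
      obtain ⟨e, he, rfl⟩ := mem_image.1 hv
      have h1 : F.erase e ⊆ F.filter fun e' => g e ∈ e' := by
        intro e' he'
        rw [mem_erase] at he'
        exact mem_filter.2 ⟨he'.2, hg2 e he e' he'.2 he'.1⟩
      have h2 := card_le_card h1
      rw [card_erase_of_mem he] at h2
      show 1 ≤ (F.filter fun e' => g e ∈ e').card - 1
      omega
    have h3 : (F.image g).card ≤ ∑ v ∈ U, (d v - 1) := by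
      calc (F.image g).card = ∑ v ∈ F.image g, 1 := by simp
        _ ≤ ∑ v ∈ F.image g, (d v - 1) := sum_le_sum hdeg
        _ ≤ ∑ v ∈ U, (d v - 1) := sum_le_sum_of_subset himg
    rw [card_image_of_injOn hinj, ← hm, hm3] at h3
    rw [hm3] at hUsum
    omega
  -- the double count
  set p := m - 2 with hp
  have hI : ∀ P ∈ F.powersetCard p, K ≤ (univ.filter fun v => ∀ e ∈ P, v ∈ e).card := by
    intro P hP
    rw [mem_powersetCard] at hP
    refine hno _ fun e he => ?_
    obtain ⟨v, hv⟩ := hsmall (insert e P) (insert_subset he (hP.1.trans hFE))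
      (by have := card_insert_le e P; omega)
    exact ⟨v, by simp only [mem_filter, mem_univ, true_and]; exact fun e' he' => hv e' (mem_insert_of_mem he'),
      hv e (mem_insert_self _ _)⟩
  have hcount : ∑ P ∈ F.powersetCard p, (univ.filter fun v => ∀ e ∈ P, v ∈ e).card =
      ∑ v : V, (d v).choose p := by
    simp only [card_eq_sum_ones, sum_filter]
    rw [sum_comm]
    refine sum_congr rfl fun v _ => ?_
    rw [← sum_filter, ← card_eq_sum_ones]
    have : (F.powersetCard p).filter (fun P => ∀ e ∈ P, v ∈ e) =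
        (F.filter fun e => v ∈ e).powersetCard p := by
      ext P
      simp only [mem_filter, mem_powersetCard, subset_iff]
      constructor
      · rintro ⟨⟨h1, h2⟩, h3⟩
        exact ⟨fun x hx => ⟨h1 hx, h3 x hx⟩, h2⟩
      · rintro ⟨h1, h2⟩
        exact ⟨⟨fun x hx => (h1 hx).1, h2⟩, fun x hx => (h1 hx).2⟩
    rw [this, card_powersetCard]
  have hres : ∑ v : V, (d v).choose p = ∑ v ∈ U, (d v).choose p := by
    symm
    refine sum_subset (subset_univ _) fun v _ hv => ?_
    rw [hd0 v hv]
    exact Nat.choose_eq_zero_of_lt (by omega)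
  have h1 : m.choose p * K ≤ ∑ v ∈ U, (d v).choose p := by
    rw [← hres, ← hcount]
    calc m.choose p * K = ∑ P ∈ F.powersetCard p, K := by
          rw [sum_const, card_powersetCard, smul_eq_mul]
      _ ≤ _ := sum_le_sum hI
  have h2 : p * ∑ v ∈ U, (d v).choose p ≤ (m - 1) * ∑ v ∈ U, (d v - 1) := by
    rw [mul_sum, mul_sum]
    exact sum_le_sum fun v hv => choose_bound hm4 (hdU v hv) (hdle v)
  have h3 : m.choose p = m * (m - 1) / 2 := by
    rw [hp, Nat.choose_symm (by omega), Nat.choose_two_right]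
  have h4 : 2 * (m.choose p) = m * (m - 1) := by
    rw [h3]
    have : 2 ∣ m * (m - 1) := (Nat.even_mul_pred_self m).two_dvd
    omega
  have h5 : p * (m * K) * (m - 1) ≤ 2 * ∑ v ∈ U, (d v - 1) * (m - 1) := by
    calc p * (m * K) * (m - 1) = 2 * (p * (m.choose p * K)) := by
          have : p * (m * K) * (m - 1) = p * K * (m * (m - 1)) := by ring
          rw [this, ← h4]; ring
      _ ≤ 2 * (p * ∑ v ∈ U, (d v).choose p) :=
          Nat.mul_le_mul_left _ (Nat.mul_le_mul_left _ h1)
      _ ≤ 2 * ((m - 1) * ∑ v ∈ U, (d v - 1)) := Nat.mul_le_mul_left _ h2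
      _ = 2 * ∑ v ∈ U, (d v - 1) * (m - 1) := by rw [← sum_mul]; ring
  rw [← sum_mul] at h5
  have h6 : p * (m * K) ≤ 2 * ∑ v ∈ U, (d v - 1) := by
    refine Nat.le_of_mul_le_mul_right (c := m - 1) ?_ (by omega)
    calc p * (m * K) * (m - 1) ≤ 2 * ((∑ v ∈ U, (d v - 1)) * (m - 1)) := h5
      _ = 2 * ∑ v ∈ U, (d v - 1) * (m - 1) := by rw [sum_mul]
      _ = _ := by rw [← sum_mul]; ring
  have h7 : p * (m * K) + 2 * (3 * r - 2) ≤ 2 * (m * r) := by
    linarith
  exact ⟨F, hFE, hFc, hm4, hUcard, hI, h7⟩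

/-- The upper bound for `r = 10`. -/
theorem upper_ten {V : Type} [Fintype V] [DecidableEq V] (E : Finset (Finset V))
    (hU : Uniform 10 E) (hL : Local 10 E) : ∃ T : Finset V, Cover E T ∧ T.card < 3 := by
  classical
  by_contra hno
  push Not at hno
  obtain ⟨F, hFE, hFc, h4, hUc, hI, h7⟩ := main_count (K := 3) (by norm_num) (by norm_num) E hU hL
    hno
  have hm : F.card = 4 := by
    obtain ⟨k, hk⟩ : ∃ k, F.card = k + 4 := ⟨F.card - 4, by omega⟩
    rw [hk] at h7
    have h8 : k + 4 - 2 = k + 2 := by omega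
    rw [h8] at h7
    rcases Nat.eq_zero_or_pos k with h0 | h0
    · omega
    · exfalso
      nlinarith
  rw [hm] at hI
  obtain ⟨A, B, C, D, hAB, hAC, hAD, hBC, hBD, hCD, hF⟩ := card_eq_four.1 hm
  have hpair : ∀ X Y : Finset V, X ∈ F → Y ∈ F → X ≠ Y → 3 ≤ (X ∩ Y).card := by
    intro X Y hX hY hXY
    have := hI {X, Y} (by
      rw [mem_powersetCard]
      refine ⟨?_, card_pair hXY⟩
      intro e he
      rw [mem_insert, mem_singleton] at he
      rcases he with rfl | rfl <;> assumption)
    refine this.trans (card_le_card ?_)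
    intro v hv
    have h := (mem_filter.1 hv).2
    exact mem_inter.2 ⟨h X (by simp), h Y (by simp)⟩
  have mA : A ∈ F := by rw [hF]; simp
  have mB : B ∈ F := by rw [hF]; simp
  have mC : C ∈ F := by rw [hF]; simp
  have mD : D ∈ F := by rw [hF]; simp
  refine four_ten A B C D (hU A (hFE mA)) (hU B (hFE mB)) (hU C (hFE mC)) (hU D (hFE mD)) ?_ ?_
    (hpair A B mA mB hAB) (hpair A C mA mC hAC) (hpair A D mA mD hAD) (hpair B C mB mC hBC)
    (hpair B D mB mD hBD) (hpair C D mC mD hCD)
  · refine hUc.trans (card_le_card ?_)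
    intro v hv
    obtain ⟨e, he, hve⟩ := mem_biUnion.1 hv
    rw [hF] at he
    simp only [mem_insert, mem_singleton] at he
    simp only [mem_union]
    rcases he with rfl | rfl | rfl | rfl
    · exact Or.inl (Or.inl (Or.inl hve))
    · exact Or.inl (Or.inl (Or.inr hve))
    · exact Or.inl (Or.inr hve)
    · exact Or.inr hve
  · rintro v ⟨a, b, c, d⟩
    refine hFc ⟨v, fun e he => ?_⟩
    rw [hF] at he
    simp only [mem_insert, mem_singleton] at he
    rcases he with rfl | rfl | rfl | rfl <;> assumption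

end Pool.Agent.W5h76.CN
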