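import Pool.Agent.W5h76.CN.Ex
import Pool.Agent.W5h76.CN.Upper2

/-!
# MP_51656a_co: the covering number of hypergraphs with locally small covers
-/

set_option autoImplicit false

namespace Pool.Agent.W5h76.CN.CoverNumber

open Finset Pool.Agent.W5h76.CN

/-- The covering numbers `τ(G)` of the finite `r`-uniform hypergraphs `G` which satisfy the local
condition. So `t(r)` is the supremum of this set. -/
def Taus (r : ℕ) : Set ℕ :=
  {t | ∃ (V : Type) (_ : Fintype V) (E : Finset (Finset V)), Uniform r E ∧ Local r E ∧ IsTau E t}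

theorem tau_exists {V : Type} [Fintype V] {r : ℕ} (hr : 1 ≤ r) {E : Finset (Finset V)}
    (hU : Uniform r E) : ∃ t, IsTau E t := by
  refine ⟨sInf {n | ∃ T : Finset V, Cover E T ∧ T.card = n},
    Nat.sInf_mem ⟨_, univ, fun e he => ?_, rfl⟩, fun n hn => Nat.sInf_le hn⟩
  obtain ⟨v, hv⟩ : e.Nonempty := card_pos.1 (by rw [hU e he]; omega)
  exact ⟨v, mem_univ _, hv⟩

theorem up {r K : ℕ} (hr : 3 ≤ r) (hK : 2 ≤ K) (h : r * r + K * K + 4 * K < 4 * K * r) :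
    ∀ t ∈ Taus r, t < K := by
  classical
  rintro t ⟨V, _, E, hU, hL, hT⟩
  obtain ⟨T, hT1, hT2⟩ := upper hr hK h E hU hL
  exact lt_of_le_of_lt (hT.2 ⟨T, hT1, rfl⟩) hT2

theorem up_ten : ∀ t ∈ Taus 10, t < 3 := by
  classical
  rintro t ⟨V, _, E, hU, hL, hT⟩
  obtain ⟨T, hT1, hT2⟩ := upper_ten E hU hL
  exact lt_of_le_of_lt (hT.2 ⟨T, hT1, rfl⟩) hT2

theorem low {r k : ℕ} (hk : 2 ≤ k) (h : 16 * k ≤ 3 * r + 16) : ∃ t ∈ Taus r, k ≤ t := by
  obtain ⟨a, ha⟩ : ∃ a, r = (2 * k - 1) + a := ⟨r - (2 * k - 1), by omega⟩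
  have hU := unif (3 * k - 2) (2 * k - 1) a
  have hL : Local r (EE (3 * k - 2) (2 * k - 1) a) := by
    refine loc ha (by omega) fun m u hm hmu hu => ?_
    rcases (by omega : m = 1 ∨ m = 2 ∨ m = 3 ∨ m = 4 ∨ m = 5 ∨ 6 ≤ m) with
      rfl | rfl | rfl | rfl | rfl | h6
    · omega
    · omega
    · omega
    · omega
    · omega
    · have : 6 * a ≤ m * a := Nat.mul_le_mul_right _ h6
      omega
  obtain ⟨t, ht⟩ := tau_exists (r := 2 * k - 1 + a) (by omega) hU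
  refine ⟨t, ⟨VV (3 * k - 2) a, inferInstance, EE (3 * k - 2) (2 * k - 1) a, ?_, hL, ht⟩, ?_⟩
  · rw [ha]; exact hU
  obtain ⟨T, hT1, hT2⟩ := ht.1
  have := cover_ge (by omega) hT1
  omega

/-- (1) `t(r) < K` if `r² + K² + 4K < 4Kr`. (2) `t(r) ≥ k` if `3r ≥ 16(k - 1)`. (3) The values
`t(r) = 1` for `3 ≤ r ≤ 5`, `t(r) = 2` for `6 ≤ r ≤ 10`, `t(r) = 3` for `11 ≤ r ≤ 13`. -/
theorem result :
    (∀ r K : ℕ, 3 ≤ r → 2 ≤ K → r * r + K * K + 4 * K < 4 * K * r → ∀ t ∈ Taus r, t < K) ∧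
    (∀ r k : ℕ, 2 ≤ k → 16 * k ≤ 3 * r + 16 → ∃ t ∈ Taus r, k ≤ t) ∧
    (∀ r : ℕ, 3 ≤ r → r ≤ 5 → IsGreatest (Taus r) 1) ∧
    (∀ r : ℕ, 6 ≤ r → r ≤ 10 → IsGreatest (Taus r) 2) ∧
    (∀ r : ℕ, 11 ≤ r → r ≤ 13 → IsGreatest (Taus r) 3) := by
  refine ⟨fun r K hr hK h => up hr hK h, fun r k hk h => low hk h, ?_, ?_, ?_⟩
  · intro r h1 h2
    refine ⟨⟨Fin r, inferInstance, {univ}, ?_, ?_, ?_⟩, fun t ht => ?_⟩
    · intro e he
      rw [mem_singleton.1 he, card_univ, Fintype.card_fin]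
    · intro S _
      right
      exact ⟨⟨0, by omega⟩, fun e he _ => by rw [mem_singleton.1 he]; exact mem_univ _⟩
    · refine ⟨⟨{⟨0, by omega⟩}, fun e he => ⟨⟨0, by omega⟩, mem_singleton_self _, ?_⟩,
        card_singleton _⟩, ?_⟩
      · rw [mem_singleton.1 he]; exact mem_univ _
      · rintro n ⟨T, hT, rfl⟩
        obtain ⟨v, hv, _⟩ := hT univ (mem_singleton_self _)
        exact card_pos.2 ⟨v, hv⟩
    · have : t < 2 := up h1 le_rfl (by interval_cases r <;> norm_num) t ht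
      omega
  · intro r h1 h2
    have hup : ∀ t ∈ Taus r, t < 3 := by
      rcases (by omega : r ≤ 9 ∨ r = 10) with h9 | rfl
      · exact up (by omega) (by omega) (by interval_cases r <;> norm_num)
      · exact up_ten
    obtain ⟨t, ht, h3⟩ := low (r := r) (k := 2) le_rfl (by omega)
    have h4 := hup t ht
    obtain rfl : t = 2 := by omega
    exact ⟨ht, fun s hs => by have := hup s hs; omega⟩
  · intro r h1 h2
    have hup : ∀ t ∈ Taus r, t < 4 := up (by omega) (by omega) (by interval_cases r <;> norm_num)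
    obtain ⟨t, ht, h3⟩ := low (r := r) (k := 3) (by omega) (by omega)
    have h4 := hup t ht
    obtain rfl : t = 3 := by omega
    exact ⟨ht, fun s hs => by have := hup s hs; omega⟩

end Pool.Agent.W5h76.CN.CoverNumber
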