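import Pool.Agent.W5h76.CN.Upper

/-!
# Covering numbers of hypergraphs with locally small covers: examples (MP_51656a_co)
-/

set_option autoImplicit false

open Finset

namespace Pool.Agent.W5h76.CN

/-- The vertices: `N` core vertices, and `a` private vertices for every set of core vertices. -/
abbrev VV (N a : ℕ) : Type := Fin N ⊕ (Finset (Fin N) × Fin a)

/-- The edge of `Q`: the elements of `Q` and the private vertices of `Q`. -/
def edge (N a : ℕ) (Q : Finset (Fin N)) : Finset (VV N a) :=
  Q.map ⟨Sum.inl, Sum.inl_injective⟩ ∪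
    (univ : Finset (Fin a)).map ⟨fun x => Sum.inr (Q, x), fun x y h => by
      have := Sum.inr_injective h
      exact (Prod.ext_iff.1 this).2⟩

theorem mem_inl {N a : ℕ} {Q : Finset (Fin N)} {j : Fin N} :
    (Sum.inl j : VV N a) ∈ edge N a Q ↔ j ∈ Q := by
  simp [edge]

theorem mem_inr {N a : ℕ} {Q Q' : Finset (Fin N)} {x : Fin a} :
    (Sum.inr (Q', x) : VV N a) ∈ edge N a Q ↔ Q' = Q := by
  simp [edge, eq_comm]

theorem card_edge (N a : ℕ) (Q : Finset (Fin N)) : (edge N a Q).card = Q.card + a := by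
  unfold edge
  rw [card_union_of_disjoint, card_map, card_map, card_univ, Fintype.card_fin]
  rw [disjoint_left]
  intro v h1 h2
  simp at h1 h2
  obtain ⟨j, _, rfl⟩ := h1
  obtain ⟨x, hx⟩ := h2
  exact Sum.inr_ne_inl hx

/-- The hypergraph. -/
def EE (N c a : ℕ) : Finset (Finset (VV N a)) := (univ.powersetCard c).image (edge N a)

theorem mem_EE {N c a : ℕ} {e : Finset (VV N a)} :
    e ∈ EE N c a ↔ ∃ Q : Finset (Fin N), Q.card = c ∧ edge N a Q = e := by
  simp [EE, mem_powersetCard]

theorem unif (N c a : ℕ) : Uniform (c + a) (EE N c a) := by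
  intro e he
  obtain ⟨Q, hQ, rfl⟩ := mem_EE.1 he
  rw [card_edge, hQ]

theorem loc {N c a r : ℕ} (hr : r = c + a) (hc : 1 ≤ c)
    (hn : ∀ m u : ℕ, 1 ≤ m → m * c ≤ (m - 1) * u → u ≤ N → 3 * r - 3 < m * a + u) :
    Local r (EE N c a) := by
  classical
  intro S hS
  by_cases h0 : ∀ e ∈ EE N c a, ¬ e ⊆ S
  · exact Or.inl h0
  right
  push Not at h0
  obtain ⟨e₀, he₀, hS₀⟩ := h0
  obtain ⟨Q₀, hQ₀, rfl⟩ := mem_EE.1 he₀
  by_contra hcom
  -- the family of the edges in `S`
  set F : Finset (Finset (Fin N)) := univ.filter fun Q => Q.card = c ∧ edge N a Q ⊆ S with hF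
  set U : Finset (Fin N) := F.biUnion id with hU
  have hF1 : 1 ≤ F.card := card_pos.2 ⟨Q₀, by simp [hF, hQ₀, hS₀]⟩
  have hdeg : ∀ j ∈ U, (F.filter fun Q => j ∈ Q).card ≤ F.card - 1 := by
    intro j _
    have h1 : ∃ Q ∈ F, j ∉ Q := by
      by_contra hh
      push Not at hh
      apply hcom
      refine ⟨Sum.inl j, fun e he heS => ?_⟩
      obtain ⟨Q, hQ, rfl⟩ := mem_EE.1 he
      exact mem_inl.2 (hh Q (by simp [hF, hQ, heS]))
    have : (F.filter fun Q => j ∈ Q) ⊂ F := by
      rw [filter_ssubset]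
      exact h1
    have := card_lt_card this
    omega
  have hcount : F.card * c ≤ (F.card - 1) * U.card := by
    calc F.card * c = ∑ Q ∈ F, Q.card := by
          rw [sum_congr rfl (fun Q hQ => (mem_filter.1 hQ).2.1), sum_const, smul_eq_mul]
      _ = ∑ j : Fin N, (F.filter fun Q => j ∈ Q).card := by
          simp only [card_eq_sum_ones, sum_filter]
          rw [sum_comm]
          refine sum_congr rfl fun Q _ => ?_
          rw [← sum_filter]
          simp
      _ = ∑ j ∈ U, (F.filter fun Q => j ∈ Q).card := by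
          symm
          refine sum_subset (subset_univ _) fun j _ hj => ?_
          rw [card_eq_zero, filter_eq_empty_iff]
          intro Q hQ hjQ
          exact hj (mem_biUnion.2 ⟨Q, hQ, hjQ⟩)
      _ ≤ ∑ j ∈ U, (F.card - 1) := sum_le_sum hdeg
      _ = (F.card - 1) * U.card := by rw [sum_const, smul_eq_mul, mul_comm]
  have hUN : U.card ≤ N := by
    have := card_le_univ U
    simpa using this
  have h3 := hn F.card U.card hF1 hcount hUN
  -- the size of `S`
  have h4 : F.card * a + U.card ≤ S.card := by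
    have hsub : (U.map ⟨Sum.inl, Sum.inl_injective⟩ : Finset (VV N a)) ∪
        ((F ×ˢ (univ : Finset (Fin a))).map ⟨Sum.inr, Sum.inr_injective⟩) ⊆ S := by
      intro v hv
      rw [mem_union, mem_map, mem_map] at hv
      rcases hv with ⟨j, hj, rfl⟩ | ⟨⟨Q, x⟩, hQ, rfl⟩
      · obtain ⟨Q, hQ, hjQ⟩ := mem_biUnion.1 hj
        exact (mem_filter.1 hQ).2.2 (mem_inl.2 hjQ)
      · rw [mem_product] at hQ
        exact (mem_filter.1 hQ.1).2.2 (mem_inr.2 rfl)
    have h5 := card_le_card hsub
    rw [card_union_of_disjoint, card_map, card_map, card_product, card_univ,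
      Fintype.card_fin] at h5
    · omega
    · rw [disjoint_left]
      intro v h1 h2
      rw [mem_map] at h1 h2
      obtain ⟨j, _, rfl⟩ := h1
      obtain ⟨x, _, hx⟩ := h2
      exact Sum.inr_ne_inl hx
  omega

theorem cover_ge {N c a : ℕ} (hc : 1 ≤ c) {T : Finset (VV N a)} (hT : Cover (EE N c a) T) :
    N < T.card + c := by
  classical
  by_contra hlt
  have hN : 0 < N := by omega
  -- replace private vertices
  let f : VV N a → Fin N := fun v => match v with
    | Sum.inl j => j
    | Sum.inr (Q, _) => if h : Q.Nonempty then Q.min' h else ⟨0, hN⟩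
  have h1 : (T.image f).card ≤ T.card := card_image_le
  have h2 : c ≤ ((univ : Finset (Fin N)) \ T.image f).card := by
    rw [card_sdiff_of_subset (subset_univ _), card_univ, Fintype.card_fin]
    omega
  obtain ⟨Q, hQs, hQc⟩ := exists_subset_card_eq h2
  obtain ⟨v, hv, hve⟩ := hT (edge N a Q) (mem_EE.2 ⟨Q, hQc, rfl⟩)
  have h3 : f v ∈ Q := by
    rcases v with j | ⟨Q', x⟩
    · exact mem_inl.1 hve
    · have := mem_inr.1 hve
      subst this
      have hne : Q'.Nonempty := card_pos.1 (by omega)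
      show (if h : Q'.Nonempty then Q'.min' h else ⟨0, hN⟩) ∈ Q'
      rw [dif_pos hne]
      exact min'_mem _ _
  have h4 := hQs h3
  rw [mem_sdiff] at h4
  exact h4.2 (mem_image_of_mem f hv)

end Pool.Agent.W5h76.CN
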